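import Pool.Agent.L7h4.FR.Five

/-!
# Project F5, part CYC (the signed cycle)
-/

set_option autoImplicit false

noncomputable section

namespace Pool.Agent.L7h59.F5

open Matrix Pool.Agent.L7h4.F5

theorem flip_mul {n : ℕ} (M : Mat n) (i j : Fin n) : (Pool.Agent.L7h4.F5.flip n * M) i j = M i.rev j := by
  rw [Matrix.mul_apply, Finset.sum_eq_single i.rev]
  · unfold Pool.Agent.L7h4.F5.flip
    rw [Matrix.of_apply, if_pos rfl, one_mul]
  · intro b _ hb
    unfold Pool.Agent.L7h4.F5.flip
    rw [Matrix.of_apply, if_neg hb, zero_mul]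
  · intro hb
    exact absurd (Finset.mem_univ _) hb

theorem flip_flip (n : ℕ) : Pool.Agent.L7h4.F5.flip n * Pool.Agent.L7h4.F5.flip n = 1 := by
  ext i j
  rw [flip_mul]
  unfold Pool.Agent.L7h4.F5.flip
  rw [Matrix.of_apply, Fin.rev_rev, Matrix.one_apply]
  exact if_congr eq_comm rfl rfl

theorem mul_cyc_lt {n : ℕ} (κ : ℂ) (A : Mat n) (i j : Fin n) (h : (j : ℕ) + 1 < n) :
    (A * cyc n κ) i j = A i ⟨j + 1, h⟩ := by
  rw [Matrix.mul_apply, Finset.sum_eq_single (⟨(j : ℕ) + 1, h⟩ : Fin n)]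
  · unfold cyc
    rw [Matrix.of_apply, if_pos rfl, mul_one]
  · intro b _ hb
    unfold cyc
    rw [Matrix.of_apply, if_neg, if_neg, mul_zero]
    · rintro ⟨-, h2⟩
      omega
    · intro h2
      exact hb (Fin.ext h2.symm)
  · intro hb
    exact absurd (Finset.mem_univ _) hb

theorem mul_cyc_last {n : ℕ} (κ : ℂ) (A : Mat n) (i j : Fin n) (h : (j : ℕ) + 1 = n) :
    (A * cyc n κ) i j = A i ⟨0, by omega⟩ * κ := by
  rw [Matrix.mul_apply, Finset.sum_eq_single (⟨0, by omega⟩ : Fin n)]
  · unfold cyc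
    rw [Matrix.of_apply, if_neg, if_pos ⟨rfl, h⟩]
    intro h2
    exact absurd h2 (Nat.succ_ne_zero _)
  · intro b _ hb
    unfold cyc
    rw [Matrix.of_apply, if_neg, if_neg, mul_zero]
    · rintro ⟨h2, -⟩
      exact hb (Fin.ext h2)
    · intro h2
      have := b.2
      omega
  · intro hb
    exact absurd (Finset.mem_univ _) hb

theorem JJ_apply {n : ℕ} (κ : ℂ) (i j : Fin n) : JJ n κ i j = cyc n κ i.rev j := flip_mul _ _ _

theorem JJ_JJ {n : ℕ} (κ : ℂ) (hκ : κ * κ = 1) : JJ n κ * JJ n κ = 1 := by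
  have h0 : JJ n κ * JJ n κ = (JJ n κ * Pool.Agent.L7h4.F5.flip n) * cyc n κ := by
    rw [Matrix.mul_assoc]
    rfl
  have hf : ∀ (M : Mat n) (i j : Fin n), (M * Pool.Agent.L7h4.F5.flip n) i j = M i j.rev := by
    intro M i j
    rw [Matrix.mul_apply, Finset.sum_eq_single j.rev]
    · unfold Pool.Agent.L7h4.F5.flip
      rw [Matrix.of_apply, if_pos (Fin.rev_rev j).symm, mul_one]
    · intro b _ hb
      unfold Pool.Agent.L7h4.F5.flip
      rw [Matrix.of_apply, if_neg, mul_zero]
      intro h2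
      exact hb (by rw [h2, Fin.rev_rev])
    · intro hb
      exact absurd (Finset.mem_univ _) hb
  ext i j
  rw [h0]
  have hi := i.2
  have hj := j.2
  by_cases h : (j : ℕ) + 1 < n
  · rw [mul_cyc_lt κ _ i j h, hf, JJ_apply]
    unfold cyc
    rw [Matrix.of_apply, Matrix.one_apply]
    simp only [Fin.val_rev, Fin.ext_iff]
    by_cases hij : (i : ℕ) = j
    · rw [if_pos hij, if_pos (by omega)]
    · rw [if_neg hij, if_neg (by omega), if_neg (by omega)]
  · rw [mul_cyc_last κ _ i j (by omega), hf, JJ_apply]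
    unfold cyc
    rw [Matrix.of_apply, Matrix.one_apply]
    simp only [Fin.val_rev, Fin.ext_iff]
    by_cases hij : (i : ℕ) = j
    · rw [if_pos hij, if_neg (by omega), if_pos (by omega), hκ]
    · rw [if_neg hij, if_neg (by omega), if_neg (by omega), zero_mul]

theorem det_cyc (n : ℕ) (κ : ℂ) (hn : 0 < n) : (cyc n κ).det = κ * (-1) ^ (n - 1) := by
  obtain ⟨m, rfl⟩ : ∃ m, n = m + 1 := ⟨n - 1, by omega⟩
  have h1 : cyc (m + 1) κ = (((finRotate (m + 1))⁻¹ : Equiv.Perm (Fin (m + 1))).permMatrix ℂ) *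
      Matrix.diagonal (fun j : Fin (m + 1) => if (j : ℕ) = m then κ else 1) := by
    ext i j
    rw [Matrix.mul_diagonal]
    unfold cyc
    rw [Matrix.of_apply, Equiv.Perm.permMatrix, PEquiv.toMatrix_apply, Equiv.toPEquiv_apply]
    have h2 : (j ∈ some (((finRotate (m + 1))⁻¹ : Equiv.Perm (Fin (m + 1))) i)) ↔
        i = finRotate (m + 1) j := by
      rw [Option.mem_some_iff, Equiv.Perm.inv_eq_iff_eq]
    rw [if_congr h2 rfl rfl]
    have hi := i.2
    have hj := j.2
    by_cases hjm : (j : ℕ) = m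
    · have h3 : finRotate (m + 1) j = 0 := by
        have : j = Fin.last m := Fin.ext hjm
        rw [this, finRotate_last]
      rw [h3, if_pos hjm, if_neg (by omega)]
      by_cases hi0 : i = 0
      · subst hi0
        rw [if_pos ⟨rfl, by omega⟩, if_pos rfl, one_mul]
      · rw [if_neg hi0, if_neg, zero_mul]
        rintro ⟨h4, -⟩
        exact hi0 (Fin.ext h4)
    · have h3 : ((finRotate (m + 1) j : Fin (m + 1)) : ℕ) = j + 1 :=
        coe_finRotate_of_ne_last (fun h => hjm (by rw [h]; rfl))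
      rw [if_neg hjm, mul_one, if_neg (c := (i : ℕ) = 0 ∧ _) (by omega)]
      refine if_congr ?_ rfl rfl
      rw [Fin.ext_iff, h3]
      exact eq_comm
  rw [h1, Matrix.det_mul, Matrix.det_diagonal, Matrix.det_permutation]
  rw [Equiv.Perm.sign_inv, sign_finRotate, Fin.prod_univ_castSucc, Fin.val_last, if_pos rfl,
    Finset.prod_eq_one]
  · push_cast
    rw [one_mul, mul_comm]
  · intro x _
    rw [if_neg]
    rw [Fin.val_castSucc]
    exact x.2.ne

theorem s_CYC : S_CYC := by
  intro n hn κ hκ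
  have hff := flip_flip n
  have hJJ := JJ_JJ (n := n) κ hκ
  have hfJ : Pool.Agent.L7h4.F5.flip n * JJ n κ = cyc n κ := by
    unfold JJ
    rw [← Matrix.mul_assoc, hff, Matrix.one_mul]
  refine ⟨hff, hJJ, hfJ, ?_, ?_, det_cyc n κ (by omega), ?_, ?_, ?_, ?_, ?_⟩
  · rw [← hfJ]
    calc Pool.Agent.L7h4.F5.flip n * JJ n κ * (JJ n κ * Pool.Agent.L7h4.F5.flip n) =
        Pool.Agent.L7h4.F5.flip n * (JJ n κ * JJ n κ) * Pool.Agent.L7h4.F5.flip n := by
          simp only [Matrix.mul_assoc]
      _ = 1 := by rw [hJJ, Matrix.mul_one, hff]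
  · rw [← hfJ]
    calc JJ n κ * Pool.Agent.L7h4.F5.flip n * (Pool.Agent.L7h4.F5.flip n * JJ n κ) =
        JJ n κ * (Pool.Agent.L7h4.F5.flip n * Pool.Agent.L7h4.F5.flip n) * JJ n κ := by
          simp only [Matrix.mul_assoc]
      _ = 1 := by rw [hff, Matrix.mul_one, hJJ]
  · constructor
    · intro i j h
      unfold cyc
      rw [Matrix.of_apply, if_neg (by omega), if_neg (by omega)]
    · intro i j h
      unfold cyc
      rw [Matrix.of_apply, if_pos h]
      exact one_ne_zero
  · ext j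
    rw [Matrix.single_one_vecMul, Pi.smul_apply, smul_eq_mul]
    show JJ n κ (last n (by omega)) j = _
    rw [JJ_apply]
    have hr : (((last n (by omega)).rev : Fin n) : ℕ) = 0 := by
      rw [Fin.val_rev]
      show n - (n - 1 + 1) = 0
      omega
    unfold cyc
    rw [Matrix.of_apply]
    have hj := j.2
    rw [if_neg (by omega)]
    by_cases h : (j : ℕ) + 1 = n
    · have : j = last n (by omega) := Fin.ext (by show (j : ℕ) = n - 1; omega)
      rw [if_pos ⟨hr, h⟩, this, Pi.single_eq_same, mul_one]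
    · rw [if_neg (fun h2 => h h2.2), Pi.single_eq_of_ne, mul_zero]
      intro h2
      apply h
      rw [h2]
      show n - 1 + 1 = n
      omega
  · intro v i h
    show ∑ j, JJ n κ i j * v j = _
    rw [Finset.sum_eq_single (⟨n - 2 - i, by omega⟩ : Fin n)]
    · rw [JJ_apply]
      unfold cyc
      rw [Matrix.of_apply, if_pos, one_mul]
      show n - 2 - i + 1 = ((i.rev : Fin n) : ℕ)
      rw [Fin.val_rev]
      omega
    · intro b _ hb
      rw [JJ_apply]
      unfold cyc
      rw [Matrix.of_apply, if_neg, if_neg, zero_mul]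
      · rw [Fin.val_rev]
        omega
      · rw [Fin.val_rev]
        intro h2
        exact hb (Fin.ext (by show (b : ℕ) = n - 2 - i; omega))
    · intro hb
      exact absurd (Finset.mem_univ _) hb
  · intro A hA
    constructor
    · intro i j h
      have hi := i.2
      rw [mul_cyc_lt κ A i j (by omega)]
      exact hA.1 _ _ h
    · intro i j h
      have hi := i.2
      rw [mul_cyc_lt κ A i j (by omega)]
      have : (⟨(j : ℕ) + 1, by omega⟩ : Fin n) = i := Fin.ext h
      rw [this]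
      exact hA.2 i
  · intro A i j h
    exact mul_cyc_lt κ A i j h

end Pool.Agent.L7h59.F5
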