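import Pool.Agent.L7h4.FR.Five

/-!
# Project F5, part PLC (pole placement)
-/

set_option autoImplicit false

noncomputable section

namespace Pool.Agent.L7h59.F5

open Matrix Pool.Agent.L7h4.F5

theorem s_PLC (h : S_HESS) : S_PLC := by
  intro n hn H c hH
  obtain ⟨-, -, h3, h4, -⟩ := h n (by omega) H hH
  ext i k
  rw [Matrix.add_mul, Matrix.add_apply, Matrix.mul_apply, Matrix.mul_apply, Matrix.mul_apply]
  simp only [Matrix.of_apply, vecMulVec_apply]
  have e1 : ∑ j, H i j * (H ^ (k : ℕ)) j ⟨0, by omega⟩ = (H ^ ((k : ℕ) + 1)) i ⟨0, by omega⟩ := by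
    rw [pow_succ', Matrix.mul_apply]
  rw [e1]
  have e2 : ∀ x : ℂ, ∑ j, x * (Pi.single (last n (by omega)) 1 : Fin n → ℂ) j *
      (H ^ (k : ℕ)) j ⟨0, by omega⟩ = x * (H ^ (k : ℕ)) (last n (by omega)) ⟨0, by omega⟩ := by
    intro x
    rw [Finset.sum_eq_single (last n (by omega))]
    · rw [Pi.single_eq_same, mul_one]
    · intro b _ hb
      rw [Pi.single_eq_of_ne hb, mul_zero, zero_mul]
    · intro hb
      exact absurd (Finset.mem_univ _) hb
  rw [e2]
  unfold Comp
  simp only [Matrix.of_apply]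
  by_cases hk : (k : ℕ) + 1 = n
  · have hk' : (k : ℕ) = n - 1 := by omega
    have e3 : ∀ m : Fin n, (H ^ (m : ℕ)) i ⟨0, by omega⟩ *
        ((if (k : ℕ) + 1 = m then (1 : ℂ) else 0) + (if (k : ℕ) + 1 = n then - c m else 0)) =
        - (c m * (H ^ (m : ℕ)) i ⟨0, by omega⟩) := by
      intro m
      rw [if_neg (by have := m.2; omega), if_pos hk]
      ring
    rw [Finset.sum_congr rfl fun m _ => e3 m, Finset.sum_neg_distrib]
    rw [hk, hk']
    field_simp
    ring
  · have e3 : ∀ m : Fin n, (H ^ (m : ℕ)) i ⟨0, by omega⟩ *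
        ((if (k : ℕ) + 1 = m then (1 : ℂ) else 0) + (if (k : ℕ) + 1 = n then - c m else 0)) =
        if (k : ℕ) + 1 = m then (H ^ (m : ℕ)) i ⟨0, by omega⟩ else 0 := by
      intro m
      rw [if_neg hk, add_zero]
      split_ifs with hh
      · rw [mul_one]
      · rw [mul_zero]
    have hlt : (k : ℕ) + 1 < n := by have := k.2; omega
    rw [Finset.sum_congr rfl fun m _ => e3 m, h3 k hlt, mul_zero, add_zero]
    rw [Finset.sum_eq_single (⟨(k : ℕ) + 1, hlt⟩ : Fin n)]
    · rw [if_pos rfl]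
    · intro b _ hb
      rw [if_neg]
      intro hh
      exact hb (Fin.ext hh.symm)
    · intro hb
      exact absurd (Finset.mem_univ _) hb

end Pool.Agent.L7h59.F5
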